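import Mathlib
import Pool.Agent.H.MP_f65ae4_nt.B

namespace Pool.Agent.Results.MP_1a5975_nt.Yes

open Nat Finset Pool.Agent.H.MP_f65ae4_nt

/-- `a_n = (∑_{k<n} (35k+8) (4k)!/(k!)^4 81^(n-1-k)) / (4n(2n+1)C(2n,n))`. -/
def a (n : ℕ) : ℚ :=
  (∑ k ∈ range n, (35 * k + 8) * (((4 * k)! : ℚ) / (k ! : ℚ) ^ 4) * 81 ^ (n - 1 - k)) /
    (4 * n * (2 * n + 1) * ((2 * n).choose n : ℚ))

def L (n q : ℕ) : ℕ := (2 * n + 3) / q + ((2 * n + 1) / q + n / q + n / q + n / q)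
def R (n q : ℕ) : ℕ := (2 * n + 2) / q + ((n + 1) / q + (4 * n + 2) / q)

lemma LR (n q : ℕ) (hq : q % 2 = 1) (h5 : 5 ≤ q) :
    L n q ≤ R n q ∧ (q ∣ 2 * n + 3 → L n q = R n q) := by
  have hq0 : 0 < q := by omega
  obtain ⟨C, r, hr, rfl⟩ := split q n hq0
  unfold L R
  have hd : q ∣ 2 * (q * C + r) + 3 → 2 * r + 3 = q := by
    intro h
    rw [show 2 * (q * C + r) + 3 = q * (2 * C) + (2 * r + 3) by ring] at h
    obtain ⟨t, ht⟩ := (Nat.dvd_add_right (Dvd.intro _ rfl)).1 h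
    have : t < 3 := by nlinarith
    interval_cases t <;> omega
  rw [show 2 * (q * C + r) + 3 = q * (2 * C) + (2 * r + 3) by ring] at hd ⊢
  rw [show 2 * (q * C + r) + 1 = q * (2 * C) + (2 * r + 1) by ring,
    show 2 * (q * C + r) + 2 = q * (2 * C) + (2 * r + 2) by ring,
    show q * C + r + 1 = q * C + (r + 1) by ring,
    show 4 * (q * C + r) + 2 = q * (4 * C) + (4 * r + 2) by ring]
  simp only [Nat.mul_add_div hq0, Nat.div_eq_of_lt hr]
  have e1 := Nat.div_mul_le_self (2 * r + 3) q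
  have e2 := Nat.div_mul_le_self (2 * r + 1) q
  have e3 := Nat.div_mul_le_self (2 * r + 2) q
  have e4 := Nat.div_mul_le_self (r + 1) q
  have e5 := Nat.div_mul_le_self (4 * r + 2) q
  have f1 := Nat.lt_div_mul_add (a := 2 * r + 3) hq0
  have f2 := Nat.lt_div_mul_add (a := 2 * r + 1) hq0
  have f3 := Nat.lt_div_mul_add (a := 2 * r + 2) hq0
  have f4 := Nat.lt_div_mul_add (a := r + 1) hq0
  have f5 := Nat.lt_div_mul_add (a := 4 * r + 2) hq0
  have b1 : (2 * r + 3) / q < 3 := Nat.div_lt_of_lt_mul (by omega)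
  have b2 : (2 * r + 1) / q < 2 := Nat.div_lt_of_lt_mul (by omega)
  have b3 : (2 * r + 2) / q < 3 := Nat.div_lt_of_lt_mul (by omega)
  have b4 : (r + 1) / q < 2 := Nat.div_lt_of_lt_mul (by omega)
  have b5 : (4 * r + 2) / q < 4 := Nat.div_lt_of_lt_mul (by omega)
  have key : (2 * r + 3) / q + (2 * r + 1) / q ≤ (2 * r + 2) / q + (r + 1) / q + (4 * r + 2) / q ∧
      (2 * r + 3 = q → (2 * r + 3) / q + (2 * r + 1) / q =
        (2 * r + 2) / q + (r + 1) / q + (4 * r + 2) / q) := by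
    generalize (2 * r + 3) / q = a1 at *
    generalize (2 * r + 1) / q = a2 at *
    generalize (2 * r + 2) / q = a3 at *
    generalize (r + 1) / q = a4 at *
    generalize (4 * r + 2) / q = a5 at *
    clear hd
    interval_cases a1 <;> interval_cases a2 <;> interval_cases a3 <;> interval_cases a4 <;>
      interval_cases a5 <;> omega
  refine ⟨by omega, fun h => ?_⟩
  have := key.2 (hd h)
  omega

lemma L3 (n : ℕ) : L n (3 ^ 1) ≤ R n (3 ^ 1) + 1 ∧ (¬ 3 ∣ 2 * n + 3 → L n (3 ^ 1) ≤ R n (3 ^ 1)) ∧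
    (3 ∣ 2 * n + 3 → L n (3 ^ 1) = R n (3 ^ 1) + 1) := by
  obtain ⟨C, r, hr, rfl⟩ := split 3 n (by norm_num)
  simp only [L, R, pow_one]
  interval_cases r <;> omega

lemma LR3 (n q : ℕ) (hq : q % 2 = 1) (h1 : q ≤ 4 * n + 2) (h2 : 4 * n + 2 < 3 * q)
    (h3 : q ≠ 2 * n + 3) (hn : 6 ≤ n) : L n q + 1 ≤ R n q := by
  unfold L R
  rw [Nat.div_eq_of_lt (by omega : n < q), Nat.div_eq_of_lt (by omega : n + 1 < q)]
  rcases Nat.lt_or_ge (2 * n + 3) q with h | h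
  · rw [Nat.div_eq_of_lt h, Nat.div_eq_of_lt (by omega : 2 * n + 1 < q)]
    have : 1 ≤ (4 * n + 2) / q := (Nat.le_div_iff_mul_le (by omega)).2 (by omega)
    generalize (2 * n + 2) / q = x
    omega
  · have a1 : (2 * n + 3) / q < 2 := Nat.div_lt_of_lt_mul (by omega)
    have a2 : (2 * n + 1) / q < 2 := Nat.div_lt_of_lt_mul (by omega)
    have a3 : 1 ≤ (2 * n + 2) / q := (Nat.le_div_iff_mul_le (by omega)).2 (by omega)
    have a4 : 2 ≤ (4 * n + 2) / q := (Nat.le_div_iff_mul_le (by omega)).2 (by omega)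
    omega

def Y1 (n : ℕ) : ℕ := 4 * (n + 1) * (2 * n + 1 + (2 * n + 1)).choose (2 * n + 1) * (2 * n + 1) *
  (n + n).choose n

lemma Y1_mul (n : ℕ) : Y1 n * ((2 * n + 1)! * n ! * n ! * n !) = 4 * ((n + 1)! * (4 * n + 2)!) := by
  have : ((Y1 n * ((2 * n + 1)! * n ! * n ! * n !) : ℕ) : ℚ) =
      ((4 * ((n + 1)! * (4 * n + 2)!) : ℕ) : ℚ) := by
    unfold Y1
    push_cast
    rw [Ch, Ch, show 2 * n + 1 + (2 * n + 1) = 4 * n + 2 by ring, ← two_mul, Fs (2 * n), Fs n]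
    push_cast
    field_simp
  exact_mod_cast this

lemma Y1_pos (n : ℕ) : Y1 n ≠ 0 := by
  intro h
  have := Y1_mul n
  rw [h, zero_mul] at this
  exact absurd this.symm (by positivity)

lemma val {p : ℕ} (hp : p.Prime) (h2 : p ≠ 2) (n : ℕ) :
    (Y1 n).factorization p + ∑ i ∈ Ico 1 (4 * n + 5), L n (p ^ i) =
      (2 * n + 3).factorization p + ∑ i ∈ Ico 1 (4 * n + 5), R n (p ^ i) := by
  have h := congrArg (fun x => x.factorization p) (Y1_mul n)
  have f := fun m => factorial_ne_zero m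
  rw [Nat.factorization_mul (Y1_pos n) (by positivity), Nat.factorization_mul (by positivity) (f _),
    Nat.factorization_mul (by positivity) (f _), Nat.factorization_mul (f _) (f _),
    Nat.factorization_mul (by norm_num) (by positivity), Nat.factorization_mul (f _) (f _),
    show 4 = 2 ^ 2 from rfl, Nat.factorization_pow] at h
  simp only [Finsupp.add_apply, Finsupp.smul_apply, Nat.Prime.factorization Nat.prime_two,
    Finsupp.single_apply, if_neg (Ne.symm h2), smul_zero, zero_add] at h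
  rw [show 2 ^ 2 = 4 from rfl, vfact hp _ (4 * n + 5) (by omega), vfact hp _ (4 * n + 5) (by omega),
    vfact hp _ (4 * n + 5) (by omega), vfact hp _ (4 * n + 5) (by omega)] at h
  have h3 := vsucc hp (2 * n + 2) (4 * n + 5) (by omega)
  simp only [L, R, sum_add_distrib]
  rw [show 2 * n + 2 + 1 = 2 * n + 3 from rfl] at h3
  omega

lemma odd_pow {p : ℕ} (hp : p.Prime) (h2 : p ≠ 2) (i : ℕ) : p ^ i % 2 = 1 :=
  Nat.odd_iff.1 ((hp.odd_of_ne_two h2).pow)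

lemma nine (i : ℕ) (hi : 2 ≤ i) : 5 ≤ 3 ^ i :=
  le_trans (by norm_num) (Nat.pow_le_pow_right (by norm_num : 0 < 3) hi)

lemma dvdA (n : ℕ) (h : ¬ ∃ m, 1 ≤ m ∧ 2 * n + 3 = 3 ^ m) : 2 * n + 3 ∣ Y1 n := by
  refine (Nat.factorization_prime_le_iff_dvd (by omega) (Y1_pos n)).1 fun p hp => ?_
  by_cases h2 : p = 2
  · subst h2
    rw [Nat.factorization_eq_zero_of_not_dvd (by omega)]
    exact Nat.zero_le _
  have hv := val hp h2 n
  suffices ∑ i ∈ Ico 1 (4 * n + 5), L n (p ^ i) ≤ ∑ i ∈ Ico 1 (4 * n + 5), R n (p ^ i) by omega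
  by_cases h3 : p = 3
  · subst h3
    by_cases hd : 3 ∣ 2 * n + 3
    · have hn : 6 ≤ n := by
        by_contra hc
        have : n = 0 ∨ n = 3 := by omega
        rcases this with rfl | rfl
        · exact h ⟨1, le_rfl, rfl⟩
        · exact h ⟨2, by norm_num, rfl⟩
      set j := Nat.log 3 (4 * n + 2) with hj
      have j1 : 3 ^ j ≤ 4 * n + 2 := Nat.pow_log_le_self 3 (by omega)
      have j2 : 4 * n + 2 < 3 ^ (j + 1) := Nat.lt_pow_succ_log_self (by norm_num) _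
      have j3 : 2 ≤ j := (Nat.le_log_iff_pow_le (by norm_num) (by omega)).2 (by omega)
      have j4 : j ≤ 4 * n + 2 := Nat.log_le_self _ _
      refine sum_le_bad_good (L := fun i => L n (3 ^ i)) (R := fun i => R n (3 ^ i)) j3 (by omega)
        (L3 n).1 ?_
        (fun i hi => (LR n _ (odd_pow hp h2 i) (nine i hi)).1)
      exact LR3 n _ (odd_pow hp h2 j) j1 (by rw [pow_succ] at j2; omega)
        (fun e => h ⟨j, by omega, e.symm⟩) hn
    · refine sum_le_sum fun i hi => ?_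
      rcases Nat.lt_or_ge i 2 with h' | h'
      · obtain rfl : i = 1 := by have := (mem_Ico.1 hi).1; omega
        exact (L3 n).2.1 hd
      · exact (LR n _ (odd_pow hp h2 i) (nine i h')).1
  · refine sum_le_sum fun i hi => (LR n _ (odd_pow hp h2 i) ?_).1
    calc 5 ≤ p ^ 1 := by simpa using hp.five_le_of_ne_two_of_ne_three h2 h3
      _ ≤ p ^ i := Nat.pow_le_pow_right hp.pos (mem_Ico.1 hi).1

lemma dvdB (n m : ℕ) (h : 2 * n + 3 = 3 ^ (m + 1)) : ∃ y, Y1 n = 3 ^ m * y ∧ ¬ 3 ∣ y := by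
  have hv := val Nat.prime_three (by norm_num) n
  have hs : ∑ i ∈ Ico 1 (4 * n + 5), L n (3 ^ i) = ∑ i ∈ Ico 1 (4 * n + 5), R n (3 ^ i) + 1 := by
    refine sum_eq_bad (L := fun i => L n (3 ^ i)) (R := fun i => R n (3 ^ i)) (by omega) ?_ ?_
    · have : 3 ∣ 2 * n + 3 := by rw [h, pow_succ]; exact Dvd.intro_left _ rfl
      exact (L3 n).2.2 this
    · intro i hi
      rcases Nat.lt_or_ge (m + 1) i with h' | h'
      · have : 3 ^ (m + 1 + 1) ≤ 3 ^ i := Nat.pow_le_pow_right (by norm_num) h'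
        rw [pow_succ, ← h] at this
        simp only [L, R]
        rw [Nat.div_eq_of_lt (by omega), Nat.div_eq_of_lt (by omega), Nat.div_eq_of_lt (by omega),
          Nat.div_eq_of_lt (by omega), Nat.div_eq_of_lt (by omega), Nat.div_eq_of_lt (by omega)]
      · exact (LR n _ (odd_pow Nat.prime_three (by norm_num) i) (nine i hi)).2
          (h ▸ pow_dvd_pow 3 h')
  rw [h, Nat.Prime.factorization_pow Nat.prime_three, Finsupp.single_eq_same] at hv
  have hf : (Y1 n).factorization 3 = m := by omega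
  refine ⟨ordCompl[3] (Y1 n), ?_, Nat.not_dvd_ordCompl Nat.prime_three (Y1_pos n)⟩
  rw [← hf, Nat.ordProj_mul_ordCompl_eq_self]

def V (c j : ℕ) : ℚ := 27 ^ c * (c + j + 1) * (c + 4 * j)! / ((c + 2 * j + 1)! * (j ! : ℚ) ^ 2)

def T (c j : ℕ) : ℚ :=
  4 * (c + j + 1) * ((2 * c + 2 * j + 2)! / ((c + j + 1)! : ℚ) ^ 2) * V c j

def P3 (n k : ℚ) : ℚ := -6 * k + 27 * k ^ 2 - 27 * k ^ 3 + 8 * n - 72 * n * k + 108 * n * k ^ 2 +
  51 * n ^ 2 - 147 * n ^ 2 * k + 70 * n ^ 3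

def Phi (k j : ℕ) : ℚ := 4 * 27 ^ k * (k + 4 * j - 1)! * (2 * k + 2 * j)! * P3 (k + j) k /
  ((k + 2 * j + 1)! * (j ! : ℚ) ^ 2 * ((k + j)! : ℚ) ^ 2)

lemma wz1 (c j : ℕ) : T c (j + 1) - 81 * T c j = Phi c (j + 1) - Phi (c + 1) j := by
  unfold T V Phi P3
  rw [show c + 4 * (j + 1) - 1 = c + 4 * j + 1 + 1 + 1 by omega,
    show c + 4 * (j + 1) = c + 4 * j + 1 + 1 + 1 + 1 by ring,
    show c + 1 + 4 * j - 1 = c + 4 * j by omega,
    show 2 * c + 2 * (j + 1) + 2 = 2 * c + 2 * j + 2 + 1 + 1 by ring,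
    show 2 * c + 2 * (j + 1) = 2 * c + 2 * j + 2 by ring,
    show 2 * (c + 1) + 2 * j = 2 * c + 2 * j + 2 by ring,
    show c + 2 * (j + 1) + 1 = c + 2 * j + 1 + 1 + 1 by ring,
    show c + 1 + 2 * j + 1 = c + 2 * j + 1 + 1 by ring,
    show c + (j + 1) + 1 = c + j + 1 + 1 by ring, show c + (j + 1) = c + j + 1 by ring,
    show c + 1 + j = c + j + 1 by ring]
  rw [Fs (c + 4 * j + 1 + 1 + 1), Fs (c + 4 * j + 1 + 1), Fs (c + 4 * j + 1), Fs (c + 4 * j),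
    Fs (2 * c + 2 * j + 2 + 1), Fs (2 * c + 2 * j + 2), Fs (c + 2 * j + 1 + 1), Fs (c + 2 * j + 1),
    Fs (c + j + 1), Fs j]
  push_cast
  field_simp
  ring

lemma wz2 (c : ℕ) : T (c + 1) 0 = Phi (c + 1) 0 := by
  unfold T V Phi P3
  simp only [mul_zero, add_zero, Nat.add_sub_cancel]
  rw [show 2 * (c + 1) + 2 = 2 * (c + 1) + 1 + 1 from rfl, Fs (2 * (c + 1) + 1), Fs (2 * (c + 1)),
    Fs (c + 1), Fs c]
  push_cast
  field_simp
  ring

lemma wz3 (n : ℕ) : Phi 0 (n + 1) =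
    (35 * ((n + 1 : ℕ) : ℚ) + 8) * (((4 * (n + 1))! : ℚ) / ((n + 1)! : ℚ) ^ 4) := by
  unfold Phi P3
  simp only [mul_zero, zero_add]
  rw [show 4 * (n + 1) - 1 = 4 * n + 3 by omega, show 4 * (n + 1) = 4 * n + 3 + 1 by ring,
    Fs (4 * n + 3), Fs (2 * (n + 1))]
  push_cast
  field_simp
  ring

def Y (c j : ℕ) : ℚ := 4 * (c + 4 * j + 1) * (c + 4 * j + 2) * V c j

def U (c j : ℕ) : ℚ := match j with
  | 0 => 27 ^ c * (2 * c + 3)
  | i + 1 => 27 ^ c * ((2 * c + 4 * i + 7) * ((c + 2 * i + 1 + (2 * i + 2)).choose (2 * i + 2) *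
      (i + 1 + (i + 1)).choose (i + 1)) + (12 * (c + 2 * i + 3) ^ 2 - 30 * (c + 2 * i + 3) * (i + 1) +
      16 * (i + 1) ^ 2 - 7 * (c + 2 * i + 3) + 8 * (i + 1) + 1) *
      ((c + 2 * i + 3 + 2 * i).choose (2 * i) * catalan i))

lemma cat (i : ℕ) : (catalan i : ℚ) = (2 * i)! / ((i + 1) * (i ! : ℚ) ^ 2) := by
  have h := succ_mul_catalan_eq_centralBinom i
  rw [Nat.centralBinom_eq_two_mul_choose, two_mul] at h
  have h' : ((i : ℚ) + 1) * catalan i = (i + i).choose i := by exact_mod_cast h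
  rw [Ch, ← two_mul] at h'
  field_simp
  field_simp at h'
  linarith

lemma ab1 (c j : ℕ) : V c (j + 1) - (Y (c + 1) j - Y c (j + 1)) =
    (2 * (c + j + 1) + 3) * U c (j + 1) := by
  simp only [Y, V, U]
  rw [Ch, Ch, Ch, cat, show c + 4 * (j + 1) = c + 4 * j + 1 + 1 + 1 + 1 by ring,
    show c + 1 + 4 * j = c + 4 * j + 1 by ring,
    show c + 2 * j + 1 + (2 * j + 2) = c + 4 * j + 1 + 1 + 1 by ring,
    show c + 2 * j + 3 + 2 * j = c + 4 * j + 1 + 1 + 1 by ring,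
    show c + 2 * (j + 1) + 1 = c + 2 * j + 1 + 1 + 1 by ring,
    show c + 1 + 2 * j + 1 = c + 2 * j + 1 + 1 by ring,
    show c + 2 * j + 3 = c + 2 * j + 1 + 1 + 1 by ring, show j + 1 + (j + 1) = 2 * j + 2 by ring]
  rw [Fs (c + 4 * j + 1 + 1 + 1), Fs (c + 4 * j + 1 + 1), Fs (c + 4 * j + 1),
    Fs (c + 2 * j + 1 + 1), Fs (c + 2 * j + 1), Fs j]
  push_cast
  field_simp
  ring

lemma ab2 (c : ℕ) : V c 0 + Y c 0 = (2 * c + 3) * U c 0 := by
  unfold Y V U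
  simp only [mul_zero, add_zero, Fs]
  push_cast
  field_simp
  ring

lemma Y0 (n : ℕ) : Y 0 n = Y1 n := by
  have h : (Y1 n : ℚ) * ((2 * n + 1)! * n ! * n ! * n !) = 4 * ((n + 1)! * (4 * n + 2)!) := by
    exact_mod_cast Y1_mul n
  unfold Y V
  rw [show 4 * n + 2 = 4 * n + 1 + 1 from rfl, Fs (4 * n + 1), Fs (4 * n), Fs n] at h
  simp only [zero_add]
  push_cast at h ⊢
  field_simp
  field_simp at h
  linear_combination -h

lemma main (n : ℕ) : ∃ z : ℤ, (2 * n + 3) * a (n + 1) = - Y1 n + (2 * n + 3) * z := by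
  have h1 := wz_sum 81 (fun k => (35 * (k : ℚ) + 8) * (((4 * k)! : ℚ) / (k ! : ℚ) ^ 4)) T Phi
    (by simp [T, V]; norm_num) wz1 wz2 wz3 n
  have h2 := abel_sum V Y (fun c j => (2 * n + 3) * U c j) n
    (fun c j h => by rw [ab1, ← h]; push_cast; ring) (ab2 n)
  obtain ⟨z, hz⟩ : ∃ z : ℤ, ∑ c ∈ range (n + 1), U c (n - c) = z := by
    refine int_sum fun c _ => ?_
    generalize n - c = j
    rcases j with _ | i
    · exact ⟨27 ^ c * (2 * c + 3), by simp [U]⟩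
    · refine ⟨27 ^ c * ((2 * c + 4 * i + 7) * ((c + 2 * i + 1 + (2 * i + 2)).choose (2 * i + 2) *
        (i + 1 + (i + 1)).choose (i + 1)) + (12 * (c + 2 * i + 3) ^ 2 - 30 * (c + 2 * i + 3) * (i + 1) +
        16 * (i + 1) ^ 2 - 7 * (c + 2 * i + 3) + 8 * (i + 1) + 1) *
        ((c + 2 * i + 3 + 2 * i).choose (2 * i) * catalan i)), ?_⟩
      simp only [U]; push_cast; ring
  refine ⟨z, ?_⟩
  rw [← mul_sum, hz, Y0] at h2
  have e : ∑ c ∈ range (n + 1), T c (n - c) = 4 * (n + 1) * ((2 * (n + 1)).choose (n + 1) : ℚ) *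
      ∑ c ∈ range (n + 1), V c (n - c) := by
    rw [mul_sum]
    refine sum_congr rfl fun c hc => ?_
    obtain ⟨j, rfl⟩ : ∃ j, n = c + j := ⟨n - c, by have := mem_range.1 hc; omega⟩
    rw [show c + j - c = j by omega, T, two_mul (c + j + 1), Ch,
      show c + j + 1 + (c + j + 1) = 2 * c + 2 * j + 2 by ring]
    push_cast; ring
  unfold a
  simp only [Nat.add_sub_cancel]
  rw [h1, e, h2]
  have : (0 : ℚ) < (2 * (n + 1)).choose (n + 1) := by
    exact_mod_cast Nat.choose_pos (by omega)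
  push_cast
  field_simp
  ring

theorem result (n : ℕ) (hn : 1 ≤ n) :
    ((¬ ∃ m, 1 ≤ m ∧ 2 * n + 1 = 3 ^ m) → ∃ z : ℤ, a n = z) ∧
    ((∃ m, 1 ≤ m ∧ 2 * n + 1 = 3 ^ m) → ∃ z : ℤ, 3 * a n = z ∧ ¬ (3 : ℤ) ∣ z) := by
  obtain ⟨n, rfl⟩ : ∃ m, n = m + 1 := ⟨n - 1, by omega⟩
  obtain ⟨z, hz⟩ := main n
  have hne : (2 * (n : ℚ) + 3) ≠ 0 := by positivity
  refine ⟨fun h => ?_, ?_⟩
  · obtain ⟨y, hy⟩ := dvdA n h
    refine ⟨z - y, ?_⟩
    apply mul_left_cancel₀ hne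
    rw [hz, hy]; push_cast; ring
  · rintro ⟨m, hm, h⟩
    obtain ⟨m, rfl⟩ : ∃ k, m = k + 1 := ⟨m - 1, by omega⟩
    obtain ⟨y, hy, hy3⟩ := dvdB n m h
    refine ⟨3 * z - y, ?_, fun hd => hy3 ?_⟩
    · apply mul_left_cancel₀ hne
      have h' : (2 * (n : ℚ) + 3) = 3 ^ (m + 1) := by exact_mod_cast h
      rw [mul_left_comm, hz, hy]; push_cast; rw [h']; ring
    · omega

end Pool.Agent.Results.MP_1a5975_nt.Yes
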